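import Pool.Agent.TH896.RC.Stm

set_option autoImplicit false

/-!
# Laplace transform of `ψ(e^v) - e^v` (job 305, project RC of helper896)
-/

open MeasureTheory Filter Topology Set Polynomial
open Pool.Agent.H24R2.JP (XX FF)

namespace Pool.Agent.TH949.J305

open Pool.Agent.TH896.RC

theorem E_bound : ∃ C : ℝ, ∀ v : ℝ, 0 ≤ v → |E v| ≤ C * Real.exp v := by
  refine ⟨Real.log 4 + 4 + 1, fun v _ => ?_⟩
  have h1 := Chebyshev.psi_le_const_mul_self (Real.exp_pos v).le
  have h2 := Chebyshev.psi_nonneg (Real.exp v)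
  have h3 := Real.exp_pos v
  have h4 : 0 ≤ Real.log 4 := Real.log_nonneg (by norm_num)
  unfold E
  rw [abs_le]
  constructor <;> nlinarith

theorem E_meas : Measurable E := by
  unfold E
  exact (Chebyshev.psi_mono.measurable.comp Real.measurable_exp).sub Real.measurable_exp

theorem psi_meas : Measurable (fun v : ℝ => Chebyshev.psi (Real.exp v)) :=
  Chebyshev.psi_mono.measurable.comp Real.measurable_exp

theorem norm_cexp (s : ℂ) (v : ℝ) : ‖Complex.exp (-(s * v))‖ = Real.exp (-(s.re * v)) := by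
  rw [Complex.norm_exp]
  simp

theorem integrable_of_bound {f : ℝ → ℝ} (hf : Measurable f) {C : ℝ}
    (hC : ∀ v : ℝ, 0 ≤ v → |f v| ≤ C * Real.exp v) {s : ℂ} (hs : 1 < s.re) :
    IntegrableOn (fun v : ℝ => Complex.exp (-(s * v)) * (f v : ℂ)) (Ioi 0) := by
  have hb : 0 < s.re - 1 := by linarith
  have h1 : IntegrableOn (fun v : ℝ => C * Real.exp (-(s.re - 1) * v)) (Ioi 0) :=
    (exp_neg_integrableOn_Ioi 0 hb).const_mul C
  refine Integrable.mono' h1 ?_ ?_
  · refine Measurable.aestronglyMeasurable ?_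
    refine Measurable.mul ?_ (Complex.measurable_ofReal.comp hf)
    exact Complex.measurable_exp.comp ((Complex.measurable_ofReal.const_mul s).neg)
  · refine (ae_restrict_iff' measurableSet_Ioi).2 (Eventually.of_forall fun v hv => ?_)
    have hv0 : 0 ≤ v := le_of_lt hv
    rw [norm_mul, norm_cexp, Complex.norm_real, Real.norm_eq_abs]
    calc Real.exp (-(s.re * v)) * |f v| ≤ Real.exp (-(s.re * v)) * (C * Real.exp v) :=
          mul_le_mul_of_nonneg_left (hC v hv0) (Real.exp_pos _).le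
      _ = C * Real.exp (-(s.re - 1) * v) := by
          rw [mul_left_comm, ← Real.exp_add]
          congr 2
          ring

theorem psi_bound (v : ℝ) : |Chebyshev.psi (Real.exp v)| ≤ (Real.log 4 + 4) * Real.exp v := by
  rw [abs_of_nonneg (Chebyshev.psi_nonneg _)]
  exact Chebyshev.psi_le_const_mul_self (Real.exp_pos v).le

theorem exp_image : Real.exp '' Ioi 0 = Ioi 1 := by
  ext x
  simp only [mem_image, mem_Ioi]
  constructor
  · rintro ⟨y, hy, rfl⟩
    exact Real.one_lt_exp_iff.2 hy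
  · intro hx
    exact ⟨Real.log x, Real.log_pos hx, Real.exp_log (by linarith)⟩

theorem cpow_exp (s : ℂ) (v : ℝ) :
    ((Real.exp v : ℝ) : ℂ) ^ (-(s + 1)) = Complex.exp (-(s * v)) * Complex.exp (-(v : ℂ)) := by
  rw [Complex.cpow_def_of_ne_zero (by exact_mod_cast (Real.exp_pos v).ne'),
    ← Complex.ofReal_log (Real.exp_pos v).le, Real.log_exp, ← Complex.exp_add]
  congr 1
  ring

theorem lap_psi {s : ℂ} (hs : 1 < s.re) :
    s * ∫ v in Ioi (0 : ℝ), Complex.exp (-(s * v)) * (Chebyshev.psi (Real.exp v) : ℂ) =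
      -(deriv riemannZeta s / riemannZeta s) := by
  have hO : (fun n : ℕ => ∑ k ∈ Finset.Icc 1 n, ArithmeticFunction.vonMangoldt k) =O[atTop]
      fun n => (n : ℝ) ^ (1 : ℝ) := by
    refine Asymptotics.IsBigO.of_bound (Real.log 4 + 4) (Eventually.of_forall fun n => ?_)
    have h1 : ∑ k ∈ Finset.Icc 1 n, ArithmeticFunction.vonMangoldt k = Chebyshev.psi n := by
      rw [Chebyshev.psi, Nat.floor_natCast]
      rfl
    rw [h1, Real.rpow_one, Real.norm_eq_abs, Real.norm_eq_abs,
      abs_of_nonneg (Chebyshev.psi_nonneg _), abs_of_nonneg (Nat.cast_nonneg n)]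
    exact Chebyshev.psi_le_const_mul_self (Nat.cast_nonneg n)
  have h1 := LSeries_eq_mul_integral_of_nonneg (fun n => ArithmeticFunction.vonMangoldt n)
    zero_le_one hs hO (fun n => ArithmeticFunction.vonMangoldt_nonneg)
  have h2 := ArithmeticFunction.LSeries_vonMangoldt_eq_deriv_riemannZeta_div hs
  have h3 : (∫ t in Ioi (1 : ℝ), (∑ k ∈ Finset.Icc 1 ⌊t⌋₊,
      ((ArithmeticFunction.vonMangoldt k : ℝ) : ℂ)) * (t : ℂ) ^ (-(s + 1))) =
      ∫ v in Ioi (0 : ℝ), Complex.exp (-(s * v)) * (Chebyshev.psi (Real.exp v) : ℂ) := by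
    rw [← exp_image, integral_image_eq_integral_abs_deriv_smul measurableSet_Ioi
      (fun x _ => (Real.hasDerivAt_exp x).hasDerivWithinAt) Real.exp_injective.injOn]
    refine setIntegral_congr_fun measurableSet_Ioi fun v _ => ?_
    have h4 : (∑ k ∈ Finset.Icc 1 ⌊Real.exp v⌋₊, ((ArithmeticFunction.vonMangoldt k : ℝ) : ℂ)) =
        (Chebyshev.psi (Real.exp v) : ℂ) := by
      rw [Chebyshev.psi, Complex.ofReal_sum]
      rfl
    rw [h4, cpow_exp, abs_of_pos (Real.exp_pos v), Complex.real_smul, Complex.ofReal_exp]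
    have h5 : Complex.exp (v : ℂ) * Complex.exp (-(v : ℂ)) = 1 := by
      rw [← Complex.exp_add, add_neg_cancel, Complex.exp_zero]
    calc Complex.exp (v : ℂ) * ((Chebyshev.psi (Real.exp v) : ℂ) *
          (Complex.exp (-(s * v)) * Complex.exp (-(v : ℂ))))
        = (Complex.exp (v : ℂ) * Complex.exp (-(v : ℂ))) *
          (Complex.exp (-(s * v)) * (Chebyshev.psi (Real.exp v) : ℂ)) := by ring
      _ = _ := by rw [h5, one_mul]
  rw [h3] at h1
  rw [← h1, h2, neg_div]

theorem lap_exp {s : ℂ} (hs : 1 < s.re) :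
    IntegrableOn (fun v : ℝ => Complex.exp (-(s * v)) * (Real.exp v : ℂ)) (Ioi 0) ∧
    ∫ v in Ioi (0 : ℝ), Complex.exp (-(s * v)) * (Real.exp v : ℂ) = 1 / (s - 1) := by
  have h0 : (1 - s).re < 0 := by
    rw [Complex.sub_re, Complex.one_re]
    linarith
  have he : ∀ v : ℝ, Complex.exp (-(s * v)) * (Real.exp v : ℂ) = Complex.exp ((1 - s) * v) := by
    intro v
    rw [Complex.ofReal_exp, ← Complex.exp_add]
    congr 1
    ring
  simp_rw [he]
  refine ⟨integrableOn_exp_mul_complex_Ioi h0 0, ?_⟩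
  rw [integral_exp_mul_complex_Ioi h0 0]
  have hne : (1 : ℂ) - s ≠ 0 := by
    intro h
    rw [h, Complex.zero_re] at h0
    exact lt_irrefl _ h0
  have hne' : s - 1 ≠ 0 := by
    intro h
    apply hne
    linear_combination -h
  rw [Complex.ofReal_zero, mul_zero, Complex.exp_zero]
  field_simp
  ring

/-- JOB 305 -/
theorem lape : S_LAPE := by
  refine ⟨E_bound, E_meas, fun s hs => ?_⟩
  obtain ⟨C, hC⟩ := E_bound
  refine ⟨integrable_of_bound E_meas hC hs, ?_⟩
  have hs0 : s ≠ 0 := by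
    intro h
    rw [h, Complex.zero_re] at hs
    linarith
  have h1 := integrable_of_bound psi_meas (fun v _ => psi_bound v) hs
  have h2 := lap_exp hs
  have h3 : Lp (fun v => (E v : ℂ)) s =
      (∫ v in Ioi (0 : ℝ), Complex.exp (-(s * v)) * (Chebyshev.psi (Real.exp v) : ℂ)) -
      ∫ v in Ioi (0 : ℝ), Complex.exp (-(s * v)) * (Real.exp v : ℂ) := by
    unfold TH896.RC.Lp
    rw [← integral_sub h1 h2.1]
    refine setIntegral_congr_fun measurableSet_Ioi fun v _ => ?_
    simp only [E, Complex.ofReal_sub]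
    ring
  rw [h3, h2.2]
  congr 1
  rw [eq_div_iff hs0, mul_comm]
  exact lap_psi hs

end Pool.Agent.TH949.J305
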